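import Pool.Agent.Q120.ME.Stm

/-! Job ME-CON of helper120: mixtures of independent events. -/

set_option autoImplicit false

namespace Pool.Agent.Q285.ME

open Finset MeasureTheory Filter Pool.Agent.Q120.ET Pool.Agent.Q120.ME
open scoped Topology

/-- the uniform law on the unit interval -/
noncomputable def uni : Measure ℝ := volume.restrict (Set.Icc 0 1)

instance : IsProbabilityMeasure uni := by
  refine ⟨?_⟩
  unfold uni
  rw [Measure.restrict_apply MeasurableSet.univ, Set.univ_inter, Real.volume_Icc]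
  norm_num

theorem uni_lt {a : ℝ} (h1 : a ≤ 1) : uni {t | t < a} = ENNReal.ofReal a := by
  have hm : MeasurableSet {t : ℝ | t < a} := measurableSet_Iio
  unfold uni
  rw [Measure.restrict_apply hm]
  have h2 : {t : ℝ | t < a} ∩ Set.Icc 0 1 = Set.Ico 0 a := by
    ext t
    simp only [Set.mem_inter_iff, Set.mem_ofPred_eq, Set.mem_Icc, Set.mem_Ico]
    constructor
    · rintro ⟨h3, h4, _⟩
      exact ⟨h4, h3⟩
    · rintro ⟨h3, h4⟩
      exact ⟨h4, h3, by linarith⟩
  rw [h2, Real.volume_Ico, sub_zero]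

theorem uni_ge {a : ℝ} (h0 : 0 ≤ a) : uni {t | ¬ t < a} = ENNReal.ofReal (1 - a) := by
  have hm : MeasurableSet {t : ℝ | ¬ t < a} := measurableSet_Iio.compl
  unfold uni
  rw [Measure.restrict_apply hm]
  have h2 : {t : ℝ | ¬ t < a} ∩ Set.Icc 0 1 = Set.Icc a 1 := by
    ext t
    simp only [Set.mem_inter_iff, Set.mem_ofPred_eq, Set.mem_Icc, not_lt]
    constructor
    · rintro ⟨h3, _, h5⟩
      exact ⟨h3, h5⟩
    · rintro ⟨h3, h4⟩
      exact ⟨h3, by linarith, h4⟩
  rw [h2, Real.volume_Icc]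

/-- the product law -/
noncomputable def PP : Measure (ℕ → ℝ) := Measure.infinitePi (fun _ => uni)

instance : IsProbabilityMeasure PP := by unfold PP; infer_instance

theorem PP_cyl (a : ℕ → ℝ) (h0 : ∀ n, 0 ≤ a n) (h1 : ∀ n, a n ≤ 1) (F T : Finset ℕ) :
    PP {u | ∀ n ∈ F, (u n < a n ↔ n ∈ T)} = ENNReal.ofReal (bern a F T) := by
  classical
  have h2 : {u : ℕ → ℝ | ∀ n ∈ F, (u n < a n ↔ n ∈ T)} =
      Set.pi (F : Set ℕ) (fun n => {t : ℝ | t < a n ↔ n ∈ T}) := by
    ext u
    simp [Set.mem_pi]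
  have hm : ∀ n, MeasurableSet {t : ℝ | t < a n ↔ n ∈ T} := by
    intro n
    by_cases hn : n ∈ T
    · have h3 : {t : ℝ | t < a n ↔ n ∈ T} = {t : ℝ | t < a n} := by ext t; simp [hn]
      rw [h3]
      exact measurableSet_lt measurable_id measurable_const
    · have h3 : {t : ℝ | t < a n ↔ n ∈ T} = {t : ℝ | t < a n}ᶜ := by ext t; simp [hn]
      rw [h3]
      exact (measurableSet_lt measurable_id measurable_const).compl
  rw [h2, PP, Measure.infinitePi_pi _ (fun n _ => hm n)]
  unfold bern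
  rw [ENNReal.ofReal_prod_of_nonneg]
  · refine Finset.prod_congr rfl fun n _ => ?_
    by_cases hn : n ∈ T
    · have h3 : {t : ℝ | t < a n ↔ n ∈ T} = {t : ℝ | t < a n} := by ext t; simp [hn]
      rw [h3, uni_lt (h1 n), if_pos hn]
    · have h3 : {t : ℝ | t < a n ↔ n ∈ T} = {t : ℝ | ¬ t < a n} := by ext t; simp [hn]
      rw [h3, uni_ge (h0 n), if_neg hn]
  · intro n _
    have := h0 n
    have := h1 n
    split_ifs <;> linarith

theorem bern_nonneg (a : ℕ → ℝ) (h0 : ∀ n, 0 ≤ a n) (h1 : ∀ n, a n ≤ 1) (F T : Finset ℕ) :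
    0 ≤ bern a F T := by
  classical
  unfold bern
  refine Finset.prod_nonneg fun n _ => ?_
  have := h0 n
  have := h1 n
  split_ifs <;> linarith

theorem t_CON : J_CON := by
  classical
  intro X _ ν _ r hr hr01
  have hbm : ∀ F T : Finset ℕ, Measurable fun x => bern (r x) F T := by
    intro F T
    unfold bern
    refine Finset.measurable_fun_prod _ fun n _ => ?_
    by_cases hn : n ∈ T
    · simp only [if_pos hn]
      exact hr n
    · simp only [if_neg hn]
      exact measurable_const.sub (hr n)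
  have hrand : IsRandomSet (fun ω : X × (ℕ → ℝ) => {n | ω.2 n < r ω.1 n}) := by
    intro n
    exact measurableSet_lt ((measurable_pi_apply n).comp measurable_snd)
      ((hr n).comp measurable_fst)
  refine ⟨X × (ℕ → ℝ), inferInstance, ν.prod PP, inferInstance,
    fun ω => {n | ω.2 n < r ω.1 n}, Prod.fst, ?_⟩
  refine ⟨measurable_fst, measurePreserving_fst.map_eq, hrand, ?_⟩
  intro F T B hB
  have hS := (measurableSet_law hrand F T).inter (measurable_fst hB)
  rw [Measure.real, Measure.prod_apply hS]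
  have h1 : ∀ x, PP (Prod.mk x ⁻¹' ({ω : X × (ℕ → ℝ) | ∀ n ∈ F,
      (n ∈ {n | ω.2 n < r ω.1 n} ↔ n ∈ T)} ∩ Prod.fst ⁻¹' B)) =
      B.indicator (fun x => ENNReal.ofReal (bern (r x) F T)) x := by
    intro x
    by_cases hx : x ∈ B
    · rw [Set.indicator_of_mem hx, ← PP_cyl (r x) (fun n => (hr01 x n).1) (fun n => (hr01 x n).2)]
      congr 1
      ext u
      simp [hx]
    · rw [Set.indicator_of_notMem hx]
      have h2 : (Prod.mk x ⁻¹' ({ω : X × (ℕ → ℝ) | ∀ n ∈ F,
          (n ∈ {n | ω.2 n < r ω.1 n} ↔ n ∈ T)} ∩ Prod.fst ⁻¹' B)) = ∅ := by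
        ext u
        simp [hx]
      rw [h2, measure_empty]
  simp only [h1]
  rw [lintegral_indicator hB, integral_eq_lintegral_of_nonneg_ae]
  · exact Eventually.of_forall fun x =>
      bern_nonneg (r x) (fun n => (hr01 x n).1) (fun n => (hr01 x n).2) F T
  · exact (hbm F T).aestronglyMeasurable

end Pool.Agent.Q285.ME
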