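import Pool.Agent.Q120.ME.Stm

/-! Job ME-ASU of helper120: the almost sure law. -/

set_option autoImplicit false

namespace Pool.Agent.Q285.ME

open Finset MeasureTheory Filter Pool.Agent.Q120.ET Pool.Agent.Q120.ME
open scoped Topology

/-- the scales -/
theorem scales (m : ℕ → ℝ) (h0 : m 0 = 0) (hst : ∀ x, m (x + 1) ≤ m x + 1)
    (hlim : Tendsto m atTop atTop) (r : ℝ) (hr : 1 < r) :
    ∃ y : ℕ → ℕ, (∀ j, r ^ j ≤ m (y j)) ∧ (∀ j x, x < y j → m x < r ^ j) ∧
      (∀ j, m (y j) ≤ r ^ j + 1) := by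
  classical
  have hex : ∀ j : ℕ, ∃ x, r ^ j ≤ m x := fun j => (hlim.eventually_ge_atTop (r ^ j)).exists
  refine ⟨fun j => Nat.find (hex j), fun j => Nat.find_spec (hex j),
    fun j x hx => not_le.1 (Nat.find_min (hex j) hx), fun j => ?_⟩
  have h1 := Nat.find_spec (hex j)
  obtain ⟨k, hk⟩ : ∃ k, Nat.find (hex j) = k + 1 := by
    refine Nat.exists_eq_succ_of_ne_zero fun h => ?_
    rw [h, h0] at h1
    have : 0 < r ^ j := pow_pos (by linarith) j
    linarith
  have h2 : m k < r ^ j := not_le.1 (Nat.find_min (hex j) (by omega))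
  change m (Nat.find (hex j)) ≤ r ^ j + 1
  rw [hk]
  have := hst k
  linarith

/-- from the scales to all integers -/
theorem det (m D : ℕ → ℝ) (hm : Monotone m) (hD : Monotone D) (hlim : Tendsto m atTop atTop)
    (ε : ℝ) (hε : 0 < ε) (hε1 : ε < 1) (y : ℕ → ℕ) (hy1 : ∀ j, (1 + ε) ^ j ≤ m (y j))
    (hy2 : ∀ j x, x < y j → m x < (1 + ε) ^ j) (hy3 : ∀ j, m (y j) ≤ (1 + ε) ^ j + 1)
    (hev : ∀ᶠ j : ℕ in atTop, |D (y j) - m (y j)| ≤ ε * m (y j)) :
    ∀ᶠ x : ℕ in atTop, |D x / m x - 1| ≤ 5 * ε := by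
  have hr : (1 : ℝ) < 1 + ε := by linarith
  have h1 := (tendsto_pow_atTop_atTop_of_one_lt hr).eventually_ge_atTop (1 / ε)
  obtain ⟨J, hJ⟩ := eventually_atTop.1 (hev.and h1)
  filter_upwards [hlim.eventually_ge_atTop ((1 + ε) ^ J), hlim.eventually_ge_atTop 1] with x hx hx1
  obtain ⟨j, hj1, hj2⟩ := exists_nat_pow_near hx1 hr
  have hjJ : J ≤ j := by
    have h2 : (1 + ε) ^ J < (1 + ε) ^ (j + 1) := lt_of_le_of_lt hx hj2
    have h3 := (pow_lt_pow_iff_right₀ hr).1 h2
    omega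
  have hP : 0 < (1 + ε) ^ j := by positivity
  obtain ⟨e1, e2⟩ := hJ j hjJ
  obtain ⟨e3, -⟩ := hJ (j + 1) (by omega)
  have e4 : 1 ≤ ε * (1 + ε) ^ j := by
    rw [div_le_iff₀ hε] at e2
    linarith
  have hy4 : y j ≤ x := by
    by_contra h
    push Not at h
    have := hy2 j x h
    linarith
  have hy5 : x ≤ y (j + 1) := by
    by_contra h
    push Not at h
    have h2 := hm h.le
    have h3 := hy1 (j + 1)
    linarith
  have f1 := hD hy4
  have f2 := hD hy5
  rw [abs_le] at e1 e3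
  have g1 := hy1 j
  have g2 := hy3 (j + 1)
  rw [pow_succ] at g2 hj2
  have hm0 : 0 < m x := by linarith
  rw [div_sub_one hm0.ne', abs_div, abs_of_pos hm0, div_le_iff₀ hm0, abs_le]
  set P : ℝ := (1 + ε) ^ j with hPdef
  constructor
  · have a1 : (1 - ε) * P ≤ D x := by nlinarith
    have a2 : m x ≤ P * (1 + ε) := hj2.le
    nlinarith [mul_nonneg hε.le hP.le, mul_nonneg hε.le hm0.le]
  · have a1 : D x ≤ (1 + ε) * (P * (1 + ε) + ε * P) := by nlinarith
    have a2 : (1 + ε) * (P * (1 + ε) + ε * P) = (1 + 3 * ε + 2 * ε ^ 2) * P := by ring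
    have a3 : (1 + 3 * ε + 2 * ε ^ 2) * P ≤ (1 + 5 * ε) * P := by
      refine mul_le_mul_of_nonneg_right ?_ hP.le
      nlinarith
    have a4 : (1 + 5 * ε) * P ≤ (1 + 5 * ε) * m x := mul_le_mul_of_nonneg_left hj1 (by linarith)
    linarith

/-- the sum over the scales -/
theorem sumd (w m d : ℕ → ℝ) (hw : ∀ n, 0 ≤ w n) (hmw : ∀ n, m n = ∑ i ∈ range n, w i)
    (hd : Monotone d) (hd0 : ∀ n, 0 ≤ d n) (hs : Summable fun n => w n * d n / m n ^ 2)
    (ε : ℝ) (hε : 0 < ε) (y : ℕ → ℕ) (hy1 : ∀ j, (1 + ε) ^ j ≤ m (y j))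
    (hy2 : ∀ j x, x < y j → m x < (1 + ε) ^ j) (hy3 : ∀ j, m (y j) ≤ (1 + ε) ^ j + 1) :
    Summable fun j => d (y j) / (1 + ε) ^ j := by
  have hr : (1 : ℝ) < 1 + ε := by linarith
  have hm : Monotone m := by
    refine monotone_nat_of_le_succ fun n => ?_
    rw [hmw, hmw, sum_range_succ]
    linarith [hw n]
  have hyy : ∀ j, y j ≤ y (j + 1) := by
    intro j
    by_contra h
    push Not at h
    have h1 := hy2 j _ h
    have h2 := hy1 (j + 1)
    have h3 : (1 + ε) ^ j ≤ (1 + ε) ^ (j + 1) := pow_le_pow_right₀ hr.le (Nat.le_succ j)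
    linarith
  set a : ℕ → ℝ := fun n => w n * d n / m n ^ 2 with ha
  have ha0 : ∀ n, 0 ≤ a n := fun n => div_nonneg (mul_nonneg (hw n) (hd0 n)) (sq_nonneg _)
  set b : ℕ → ℝ := fun j => ∑ n ∈ Ico (y j) (y (j + 1)), a n with hb
  have hb0 : ∀ j, 0 ≤ b j := fun j => sum_nonneg fun n _ => ha0 n
  have hbs : Summable b := by
    refine summable_of_sum_range_le (c := ∑' n, a n) hb0 fun J => ?_
    have h1 : ∀ J, y 0 ≤ y J ∧ ∑ j ∈ range J, b j = ∑ n ∈ Ico (y 0) (y J), a n := by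
      intro J
      induction J with
      | zero => simp
      | succ J ih =>
        refine ⟨ih.1.trans (hyy J), ?_⟩
        rw [sum_range_succ, ih.2, hb, sum_Ico_consecutive _ ih.1 (hyy J)]
    rw [(h1 J).2]
    exact hs.sum_le_tsum _ fun n _ => ha0 n
  have hK : 0 ≤ 2 * (1 + ε) ^ 2 / ε := by positivity
  refine Summable.of_norm_bounded_eventually_nat (hbs.mul_left (2 * (1 + ε) ^ 2 / ε)) ?_
  have h1 := (tendsto_pow_atTop_atTop_of_one_lt hr).eventually_ge_atTop (2 / ε)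
  filter_upwards [h1] with j hj
  have hP : 0 < (1 + ε) ^ j := by positivity
  rw [Real.norm_of_nonneg (div_nonneg (hd0 _) hP.le)]
  have h2 : 2 ≤ ε * (1 + ε) ^ j := by
    rw [div_le_iff₀ hε] at hj
    linarith
  have h3 : ∑ n ∈ Ico (y j) (y (j + 1)), w n * (d (y j) / ((1 + ε) ^ (j + 1)) ^ 2) ≤ b j := by
    refine sum_le_sum fun n hn => ?_
    rw [mem_Ico] at hn
    have e1 := hd hn.1
    have e2 : m n ≤ (1 + ε) ^ (j + 1) := (hy2 _ _ hn.2).le
    have e3 : 0 < m n := lt_of_lt_of_le hP ((hy1 j).trans (hm hn.1))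
    rw [ha]
    simp only
    rw [mul_div_assoc]
    refine mul_le_mul_of_nonneg_left ?_ (hw n)
    exact div_le_div₀ (hd0 n) e1 (by positivity) (pow_le_pow_left₀ e3.le e2 2)
  rw [← sum_mul] at h3
  have h4 : ε / 2 * (1 + ε) ^ j ≤ ∑ n ∈ Ico (y j) (y (j + 1)), w n := by
    rw [sum_Ico_eq_sub _ (hyy j), ← hmw, ← hmw]
    have e1 := hy1 (j + 1)
    have e2 := hy3 j
    rw [pow_succ] at e1
    linarith
  have h5 : ε / 2 * (1 + ε) ^ j * (d (y j) / ((1 + ε) ^ (j + 1)) ^ 2) ≤ b j :=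
    (mul_le_mul_of_nonneg_right h4 (div_nonneg (hd0 _) (by positivity))).trans h3
  have h6 : d (y j) / (1 + ε) ^ j =
      2 * (1 + ε) ^ 2 / ε * (ε / 2 * (1 + ε) ^ j * (d (y j) / ((1 + ε) ^ (j + 1)) ^ 2)) := by
    rw [pow_succ (1 + ε) j]
    field_simp
  rw [h6]
  exact mul_le_mul_of_nonneg_left h5 hK

open Classical in
/-- the weights -/
noncomputable def wt (U : Set ℕ) (p : ℕ → ℝ) (n : ℕ) : ℝ := if n ∈ U then p n else 0

theorem mass_eq (U : Set ℕ) (p : ℕ → ℝ) (x : ℕ) : mass U p x = ∑ n ∈ range x, wt U p n := by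
  classical
  unfold mass ind wt
  rw [sum_filter]

theorem cnt_mono (U S : Set ℕ) : Monotone fun x => (cnt U S x : ℝ) := by
  classical
  intro x y h
  refine Nat.cast_le.2 (card_le_card ?_)
  unfold ind
  exact filter_subset_filter _ (filter_subset_filter _ (range_subset_range.2 h))

/-- the almost sure law up to a factor -/
theorem key (hE : J_EVT) (hC : J_CHE) (U : Set ℕ) (p d : ℕ → ℝ) (hR : Rates U p)
    (hd : Monotone d) (hd0 : ∀ n, 0 ≤ d n) (hcv : Conv U p d) (Ω : Type) [MeasurableSpace Ω]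
    (μ : Measure Ω) [IsProbabilityMeasure μ] (A : Ω → Set ℕ) (hA : IsRandomSet A)
    (hD : ∀ᶠ x : ℕ in atTop, relEnt p μ A (ind U x) ≤ d x) (ε : ℝ) (hε : 0 < ε) (hε1 : ε < 1) :
    ∀ᵐ ω ∂μ, ∀ᶠ x : ℕ in atTop, |(cnt U (A ω) x : ℝ) / mass U p x - 1| ≤ 5 * ε := by
  classical
  set m : ℕ → ℝ := mass U p with hmdef
  have hw0 : ∀ n, 0 ≤ wt U p n := by
    intro n
    unfold wt
    split_ifs with h
    · exact (hR.pos n h).le
    · exact le_rfl
  have hw1 : ∀ n, wt U p n ≤ 1 := by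
    intro n
    unfold wt
    split_ifs with h
    · exact (hR.lt_one n h).le
    · exact zero_le_one
  have hmw : ∀ n, m n = ∑ i ∈ range n, wt U p i := fun n => mass_eq U p n
  have hm : Monotone m := by
    refine monotone_nat_of_le_succ fun n => ?_
    rw [hmw, hmw, sum_range_succ]
    linarith [hw0 n]
  have hst : ∀ x, m (x + 1) ≤ m x + 1 := by
    intro x
    rw [hmw, hmw, sum_range_succ]
    linarith [hw1 x]
  have hm0 : m 0 = 0 := by
    rw [hmw, range_zero, sum_empty]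
  have hlim : Tendsto m atTop atTop := hR.div
  have hr : (1 : ℝ) < 1 + ε := by linarith
  obtain ⟨y, hy1, hy2, hy3⟩ := scales m hm0 hst hlim (1 + ε) hr
  have hs : Summable fun n => wt U p n * d n / m n ^ 2 := by
    refine hcv.congr fun n => ?_
    unfold wt
    split_ifs
    · rfl
    · rw [zero_mul, zero_div]
  have hsd := sumd (wt U p) m d hw0 hmw hd hd0 hs ε hε y hy1 hy2 hy3
  obtain ⟨c, hc, hCc⟩ := hC ε hε
  -- the events
  set E : ℕ → Set Ω := fun j => {ω | ε * m (y j) < |(cnt U (A ω) (y j) : ℝ) - m (y j)|} with hEdef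
  have hyt : Tendsto y atTop atTop := by
    refine tendsto_atTop.2 fun N => ?_
    filter_upwards [(tendsto_pow_atTop_atTop_of_one_lt hr).eventually_gt_atTop (m N)] with j hj
    by_contra h
    push Not at h
    have h1 := hm h.le
    have h2 := hy1 j
    linarith
  have hpr : ∀ j, 0 < c * m (y j) - Real.log 2 → relEnt p μ A (ind U (y j)) ≤ d (y j) →
      μ.real (E j) ≤ (d (y j) + Real.log 2) / (c * m (y j) - Real.log 2) := by
    intro j hK hDj
    have h1 := (hE p (ind U (y j)) (fun n hn => by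
      have hn' : n ∈ U := (mem_filter.1 hn).2
      exact ⟨hR.pos n hn', hR.lt_one n hn'⟩) Ω μ A hA).2
      (fun T => ε * ∑ n ∈ ind U (y j), p n < |(T.card : ℝ) - ∑ n ∈ ind U (y j), p n|)
      (c * m (y j) - Real.log 2) ?_
    · rw [le_div_iff₀ hK]
      refine le_trans ?_ (h1.trans (by linarith))
      exact le_rfl
    · refine (hCc p (ind U (y j)) (fun n hn => by
        have hn' : n ∈ U := (mem_filter.1 hn).2
        exact ⟨(hR.pos n hn').le, (hR.lt_one n hn').le⟩)).trans (le_of_eq ?_)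
      have h2 : (2 : ℝ) = Real.exp (Real.log 2) := (Real.exp_log (by norm_num)).symm
      rw [h2, ← Real.exp_add, ← h2]
      congr 1
      have h3 : m (y j) = ∑ n ∈ ind U (y j), p n := rfl
      rw [h3]
      ring
  have hl2 : 0 < Real.log 2 := Real.log_pos (by norm_num)
  have hsum : Summable fun j => μ.real (E j) := by
    have hg : Summable fun j : ℕ => (1 / (1 + ε)) ^ j :=
      summable_geometric_of_lt_one (by positivity) (by rw [div_lt_one (by linarith)]; linarith)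
    refine Summable.of_norm_bounded_eventually_nat
      (g := fun j => 2 / c * (d (y j) / (1 + ε) ^ j + Real.log 2 * (1 / (1 + ε)) ^ j))
      ((hsd.add (hg.mul_left _)).mul_left _) ?_
    have h1 := (tendsto_pow_atTop_atTop_of_one_lt hr).eventually_ge_atTop (2 * Real.log 2 / c)
    filter_upwards [h1, hyt.eventually hD] with j hj hDj
    have hP : 0 < (1 + ε) ^ j := by positivity
    rw [Real.norm_of_nonneg measureReal_nonneg]
    rw [div_le_iff₀ hc] at hj
    have h2 : c / 2 * (1 + ε) ^ j ≤ c * m (y j) - Real.log 2 := by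
      have h3 := mul_le_mul_of_nonneg_left (hy1 j) hc.le
      linarith
    have h4 : 0 < c / 2 * (1 + ε) ^ j := by positivity
    refine (hpr j (by linarith) hDj).trans ?_
    have h5 : 0 ≤ d (y j) + Real.log 2 := by linarith [hd0 (y j)]
    refine (div_le_div_of_nonneg_left h5 h4 h2).trans (le_of_eq ?_)
    rw [one_div, inv_pow]
    field_simp
  have hfin : ∑' j, μ (E j) ≠ ⊤ := by
    have h1 : (fun j => μ (E j)) = fun j => ENNReal.ofReal (μ.real (E j)) := by
      funext j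
      rw [Measure.real, ENNReal.ofReal_toReal (measure_ne_top _ _)]
    rw [h1]
    exact hsum.tsum_ofReal_ne_top
  filter_upwards [ae_eventually_notMem hfin] with ω hω
  refine det m (fun x => (cnt U (A ω) x : ℝ)) hm (cnt_mono U (A ω)) hlim ε hε hε1 y hy1 hy2 hy3 ?_
  filter_upwards [hω] with j hj
  exact not_lt.1 hj

/-- ASU: the almost sure law. -/
theorem t_ASU (hE : J_EVT) (hC : J_CHE) : J_ASU := by
  intro U p d hR hd hd0 hcv Ω _ μ _ A hA hD
  have h1 : ∀ᵐ ω ∂μ, ∀ i : ℕ, ∀ᶠ x : ℕ in atTop,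
      |(cnt U (A ω) x : ℝ) / mass U p x - 1| ≤ 5 * (1 / ((i : ℝ) + 2)) := by
    rw [ae_all_iff]
    intro i
    refine key hE hC U p d hR hd hd0 hcv Ω μ A hA hD _ (by positivity) ?_
    rw [div_lt_one (by positivity)]
    have : (0 : ℝ) ≤ i := Nat.cast_nonneg i
    linarith
  filter_upwards [h1] with ω hω
  rw [Metric.tendsto_atTop]
  intro ε hε
  obtain ⟨i, hi⟩ := exists_nat_gt (5 / ε)
  obtain ⟨N, hN⟩ := eventually_atTop.1 (hω i)
  refine ⟨N, fun x hx => ?_⟩
  rw [Real.dist_eq]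
  refine lt_of_le_of_lt (hN x hx) ?_
  rw [mul_one_div, div_lt_iff₀ (by positivity)]
  rw [div_lt_iff₀ hε] at hi
  nlinarith

end Pool.Agent.Q285.ME
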